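import Pool.Agent.Lib.MP_b9fd58_lc.R.AlgD

/-!
# Stage 2, stream R2: divisible submodules (pure algebra over a PID)

Situation: `V₁` is killed by `g ≠ 0`, `x ∈ V₁`, `f : V₁ → V`, `z = c • f x` is a nonzero element of `V` with `π • z = 0` and
of infinite `π`-height, and all values `f' x` of homomorphisms `f' : V₁ → V` lie in a finite-dimensional `k`-subspace.
Then `z` is in a direct summand `E` of `V` which is `π`-divisible, `π`-primary, with `E[π] = R z`.

Tools: `AlgB.lean` (`exists_pow_mul`, `height_cases`, `exists_split`, `IsPS`, `inf_height_zero`), `AlgC.lean`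
(`exists_pow_mul'`), `AlgD.lean` (proof of `transfer_P`), `AlgA.lean` (`retract_of_divisible`).
-/

set_option autoImplicit false

namespace SAlg

open Function

variable {k R : Type} [Field k] [CommRing R] [IsDomain R] [IsPrincipalIdealRing R] [Algebra k R]
  {V : Type} [AddCommGroup V] [Module k V] [Module R V] [IsScalarTower k R V]

/-- `{v : π ^ j v = 0, v ∈ π ^ m V}` as a `k`-subspace -/
def Dsub (k : Type) {R : Type} [Field k] [CommRing R] [Algebra k R]
    {V : Type} [AddCommGroup V] [Module k V] [Module R V] [IsScalarTower k R V] (π : R) (j m : ℕ) : Submodule k V where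
  carrier := {v | π ^ j • v = 0 ∧ ∃ w, v = π ^ m • w}
  zero_mem' := ⟨smul_zero _, 0, (smul_zero _).symm⟩
  add_mem' := by
    rintro a b ⟨h1, w, rfl⟩ ⟨h2, w', rfl⟩
    exact ⟨by rw [smul_add, h1, h2, add_zero], w + w', by rw [smul_add]⟩
  smul_mem' := by
    rintro c a ⟨h1, w, rfl⟩
    refine ⟨?_, c • w, ?_⟩
    · rw [← algebraMap_smul R c, smul_comm, h1, smul_zero]
    · rw [← algebraMap_smul R c, ← algebraMap_smul R c w, smul_comm]

/-- Step 1. As in the proof of `transfer_P`: write `g = π ^ a * u` with `u` coprime to `π`; no element coprime to `π` kills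
`x` (otherwise `z = 0`); `z₁ = π ^ i • u • x ≠ 0` with `π • z₁ = 0`; the height of `z₁` in `V₁` is finite (`height_cases`,
`inf_height_zero`), so `z₁ = π ^ n • w₁` with `R w₁ ≅ R/(π ^ (n+1))` a direct summand of `V₁` (`exists_split`). If
`π • v = 0` and `v = π ^ n • w`, then `1 ↦ w` defines a homomorphism from this summand, so `f' : V₁ → V` with
`v = f' z₁ = (π ^ i * u) • f' x`. -/
theorem exists_bound {π : R} (hπ : Prime π) {V₁ : Type} [AddCommGroup V₁] [Module R V₁] {g : R} (hg0 : g ≠ 0)
    (hg : ∀ v : V₁, g • v = 0) {x : V₁} {f : V₁ →ₗ[R] V} {c : R} (hz0 : c • f x ≠ 0) (hz : π • c • f x = 0)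
    (F : Submodule k V) (hF : FiniteDimensional k F) (hfx : ∀ f' : V₁ →ₗ[R] V, f' x ∈ F) :
    ∃ n : ℕ, FiniteDimensional k (Dsub k (V := V) π 1 n) := by
  classical
  -- no element coprime to `π` kills `x`
  have hcop : ∀ s : R, IsCoprime s π → s • x ≠ 0 := by
    rintro s ⟨a, b, hab⟩ hsx
    apply hz0
    calc c • f x = (a * s + b * π) • c • f x := by rw [hab, one_smul]
      _ = 0 := by
        rw [add_smul, mul_smul, mul_smul b, hz, smul_zero, add_zero, smul_comm s c,
          ← map_smul, hsx, map_zero, smul_zero, smul_zero]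
  obtain ⟨a, u, rfl, hu⟩ := exists_pow_mul' hπ hg0
  have huv : u • x ≠ 0 := hcop u hu
  have hex : ∃ i : ℕ, π ^ i • u • x = 0 := ⟨a, by rw [smul_smul]; exact hg x⟩
  have hfind := Nat.find_spec hex
  have hmin := fun m (hm : m < Nat.find hex) => Nat.find_min hex hm
  set N := Nat.find hex with hN
  have hN0 : N ≠ 0 := by
    intro h0
    rw [h0, pow_zero, one_smul] at hfind
    exact huv hfind
  obtain ⟨i, hi⟩ := Nat.exists_eq_succ_of_ne_zero hN0
  have h1 : π ^ i • u • x ≠ 0 := hmin i (by omega)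
  set z₁ : V₁ := π ^ i • u • x with hz₁
  have h2 : π • z₁ = 0 := by
    rw [hz₁, smul_smul, ← pow_succ', ← Nat.succ_eq_add_one, ← hi]
    exact hfind
  rcases height_cases π z₁ h2 with h3 | ⟨n, w₁, hw₁, hPS⟩
  · exact absurd (inf_height_zero hπ _ hg0 hg z₁ h2 h3) h1
  · obtain ⟨ι, e, -, -, he⟩ := exists_split hπ hPS
    refine ⟨n, ?_⟩
    let L : V →ₗ[k] V := Algebra.lsmul k k V (π ^ i * u)
    have hle : Dsub k (V := V) π 1 n ≤ F.map L := by
      rintro v ⟨hv0, w, hw⟩
      have hw' : π ^ (n + 1) • w = 0 := by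
        rw [pow_succ', mul_smul, ← hw]
        simpa using hv0
      let θ : (R ⧸ Ideal.span {π ^ (n + 1)}) →ₗ[R] V :=
        Submodule.liftQ (Ideal.span {π ^ (n + 1)}) (LinearMap.toSpanSingleton R V w) (by
          show Submodule.span R {π ^ (n + 1)} ≤ _
          rw [Submodule.span_le, Set.singleton_subset_iff]
          exact hw')
      have hθ : θ 1 = w := by
        show (1 : R) • w = w
        rw [one_smul]
      have h4 : θ (e z₁) = v := by
        rw [hw₁, map_smul, he, map_smul, hθ, ← hw]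
      refine Submodule.mem_map.2 ⟨(θ ∘ₗ e) x, hfx _, ?_⟩
      show (π ^ i * u) • (θ ∘ₗ e) x = v
      rw [← h4, hz₁, map_smul, map_smul, map_smul, map_smul, mul_smul]
      rfl
    haveI : FiniteDimensional k (F.map L) := inferInstance
    exact Submodule.finiteDimensional_of_le hle

theorem Dsub_anti {π : R} {j m m' : ℕ} (h : m ≤ m') : Dsub k (V := V) π j m' ≤ Dsub k (V := V) π j m := by
  rintro v ⟨h1, w, hw⟩
  refine ⟨h1, π ^ (m' - m) • w, ?_⟩
  rw [smul_smul, ← pow_add, Nat.add_sub_cancel' h, hw]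

/-- Step 2: induction on `j`; the kernel of `π : D_{j+1,m} → D_{j,m+1}` is contained in `D_{1,m}`. -/
theorem fd_Dsub {π : R} {n : ℕ} (h : FiniteDimensional k (Dsub k (V := V) π 1 n)) (j m : ℕ) (hm : n ≤ m) :
    FiniteDimensional k (Dsub k (V := V) π j m) := by
  induction j generalizing m with
  | zero =>
    have h0 : Dsub k (V := V) π 0 m = ⊥ := by
      rw [eq_bot_iff]
      rintro v ⟨h1, -⟩
      rw [pow_zero, one_smul] at h1
      rw [h1]
      exact Submodule.zero_mem _
    rw [h0]
    infer_instance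
  | succ j ih =>
    haveI h1 := ih (m + 1) (by omega)
    haveI h2 : FiniteDimensional k (Dsub k (V := V) π 1 m) :=
      Submodule.finiteDimensional_of_le (Dsub_anti hm)
    let L : V →ₗ[k] V := Algebra.lsmul k k V π
    have hL : ∀ v, L v = π • v := fun v => rfl
    rw [← Submodule.fg_iff_finiteDimensional]
    apply Submodule.fg_of_fg_map_of_fg_inf_ker L
    · have hle : (Dsub k (V := V) π (j + 1) m).map L ≤ Dsub k (V := V) π j (m + 1) := by
        rintro _ ⟨v, ⟨h3, w, hw⟩, rfl⟩
        refine ⟨?_, w, ?_⟩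
        · rw [hL, smul_smul, ← pow_succ]
          exact h3
        · rw [hL, hw, smul_smul, ← pow_succ']
      rw [Submodule.fg_iff_finiteDimensional]
      exact Submodule.finiteDimensional_of_le hle
    · have hle : Dsub k (V := V) π (j + 1) m ⊓ LinearMap.ker L ≤ Dsub k (V := V) π 1 m := by
        rintro v ⟨⟨-, w, hw⟩, h4⟩
        refine ⟨?_, w, hw⟩
        rw [pow_one]
        exact h4
      rw [Submodule.fg_iff_finiteDimensional]
      exact Submodule.finiteDimensional_of_le hle

end SAlg
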