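import Pool.Agent.Lib.MP_b9fd58_lc.R2.Ra1

/-!
# Stage 2, stream R2: divisible submodules (II)
-/

set_option autoImplicit false

namespace SAlg

open Function

variable {k R : Type} [Field k] [CommRing R] [IsDomain R] [IsPrincipalIdealRing R] [Algebra k R]
  {V : Type} [AddCommGroup V] [Module k V] [Module R V] [IsScalarTower k R V]

/-- Step 3: the decreasing sequence `D_{j,m}` (`m ≥ n`) of finite-dimensional spaces is stationary; so an element of all
`D_{j,m}` is `π` times an element of all `D_{j+1,m}` (write it as `π ^ (M+1) • w` with `M` large, take `π ^ M • w`). -/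
theorem exists_lift {π : R} {n : ℕ} (h : FiniteDimensional k (Dsub k (V := V) π 1 n)) (j : ℕ) (y : V)
    (hy : ∀ m, y ∈ Dsub k (V := V) π j m) : ∃ y' : V, π • y' = y ∧ ∀ m, y' ∈ Dsub k (V := V) π (j + 1) m := by
  have hfd : ∀ m, n ≤ m → FiniteDimensional k (Dsub k (V := V) π (j + 1) m) :=
    fun m hm => fd_Dsub h (j + 1) m hm
  -- the dimension is minimal at some `n + i₀`
  obtain ⟨i₀, hi₀⟩ : ∃ i₀, ∀ i, Module.finrank k (Dsub k (V := V) π (j + 1) (n + i₀)) ≤
      Module.finrank k (Dsub k (V := V) π (j + 1) (n + i)) := by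
    obtain ⟨a, ⟨i, hi⟩, h2⟩ := (wellFounded_lt (α := ℕ)).has_min
      (Set.range fun i => Module.finrank k (Dsub k (V := V) π (j + 1) (n + i))) ⟨_, ⟨0, rfl⟩⟩
    refine ⟨i, fun i' => ?_⟩
    have h3 := h2 _ ⟨i', rfl⟩
    simp only at hi
    rw [hi]
    exact not_lt.1 h3
  set M := n + i₀ with hM
  have heq : ∀ m, M ≤ m → Dsub k (V := V) π (j + 1) m = Dsub k (V := V) π (j + 1) M := by
    intro m hm
    have := hfd M (by omega)
    apply Submodule.eq_of_le_of_finrank_le (Dsub_anti hm)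
    have h4 := hi₀ (m - n)
    rwa [show n + (m - n) = m by omega] at h4
  obtain ⟨hy0, w, hw⟩ := hy (M + 1)
  have hπ : π • (π ^ M • w) = y := by
    rw [hw, smul_smul, ← pow_succ']
  have hmem : π ^ M • w ∈ Dsub k (V := V) π (j + 1) M := by
    refine ⟨?_, w, rfl⟩
    rw [pow_succ, mul_smul, hπ]
    exact hy0
  refine ⟨π ^ M • w, hπ, fun m => ?_⟩
  rcases le_total M m with hm | hm
  · rw [heq m hm]
    exact hmem
  · exact Dsub_anti hm hmem

/-- Step 4 -/
theorem exists_seq {π : R} {n : ℕ} (h : FiniteDimensional k (Dsub k (V := V) π 1 n)) (z : V) (hz : π • z = 0)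
    (hinf : ∀ n : ℕ, ∃ w : V, z = π ^ n • w) : ∃ s : ℕ → V, s 0 = z ∧ ∀ j, π • s (j + 1) = s j := by
  have hlift := fun (j : ℕ) (y : V) (hy : ∀ m, y ∈ Dsub k (V := V) π j m) => exists_lift h j y hy
  choose! F hF1 hF2 using hlift
  have h0 : ∀ m, z ∈ Dsub k (V := V) π 1 m := fun m => ⟨by rw [pow_one]; exact hz, hinf m⟩
  let s : ℕ → V := fun j => Nat.rec z (fun j y => F (j + 1) y) j
  have hs0 : s 0 = z := rfl
  have hs1 : ∀ j, s (j + 1) = F (j + 1) (s j) := fun j => rfl
  have hmem : ∀ j, ∀ m, s j ∈ Dsub k (V := V) π (j + 1) m := by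
    intro j
    induction j with
    | zero => exact h0
    | succ j ih =>
      rw [hs1]
      exact hF2 (j + 1) (s j) ih
  refine ⟨s, hs0, fun j => ?_⟩
  rw [hs1]
  exact hF1 (j + 1) (s j) (hmem j)

end SAlg
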