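import Pool.Agent.Lib.MP_b9fd58_lc.R.AlgD

/-!
# Stage 2, stream R2: divisible submodules (III)
-/

set_option autoImplicit false

namespace SAlg

open Function

variable {R : Type} [CommRing R] [IsDomain R] [IsPrincipalIdealRing R] {V : Type} [AddCommGroup V] [Module R V]

omit [IsDomain R] [IsPrincipalIdealRing R] in
theorem r2_Ra3_pow {π : R} (s : ℕ → V) (hs : ∀ j, π • s (j + 1) = s j) (a : ℕ) :
    ∀ j, π ^ a • s (j + a) = s j := by
  induction a with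
  | zero => intro j; simp
  | succ a ih =>
    intro j
    have h := hs (j + a)
    rw [pow_succ, mul_smul, show j + (a + 1) = j + a + 1 from rfl, h, ih j]

omit [IsDomain R] [IsPrincipalIdealRing R] in
theorem r2_Ra3_kill {π : R} (s : ℕ → V) (h1 : π • s 0 = 0) (hs : ∀ j, π • s (j + 1) = s j) (j : ℕ) :
    π ^ (j + 1) • s j = 0 := by
  have h := r2_Ra3_pow s hs j 0
  rw [Nat.zero_add] at h
  rw [pow_succ', mul_smul, h, h1]

/-- the submodule of all `r • s j` -/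
def r2_Ra3_E {π : R} (s : ℕ → V) (hs : ∀ j, π • s (j + 1) = s j) : Submodule R V where
  carrier := {v | ∃ (r : R) (j : ℕ), v = r • s j}
  zero_mem' := ⟨0, 0, (zero_smul _ _).symm⟩
  add_mem' := by
    rintro a b ⟨r, j, rfl⟩ ⟨r', j', rfl⟩
    refine ⟨r * π ^ j' + r' * π ^ j, j + j', ?_⟩
    rw [add_smul, mul_smul, mul_smul, r2_Ra3_pow s hs j' j, Nat.add_comm j j', r2_Ra3_pow s hs j j']
  smul_mem' := by
    rintro c a ⟨r, j, rfl⟩
    exact ⟨c * r, j, by rw [mul_smul]⟩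

omit [IsDomain R] [IsPrincipalIdealRing R] in
theorem r2_Ra3_mem {π : R} (s : ℕ → V) (hs : ∀ j, π • s (j + 1) = s j) (v : V) :
    v ∈ r2_Ra3_E s hs ↔ ∃ (r : R) (j : ℕ), v = r • s j := Iff.rfl

omit [IsDomain R] [IsPrincipalIdealRing R] in
theorem r2_Ra3_ne {π : R} (s : ℕ → V) (h0 : s 0 ≠ 0) (hs : ∀ j, π • s (j + 1) = s j) (j : ℕ) :
    s j ≠ 0 := by
  intro h
  have h2 := r2_Ra3_pow s hs j 0
  rw [Nat.zero_add, h, smul_zero] at h2
  exact h0 h2.symm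

theorem r2_Ra3_soc {π : R} (hπ : Prime π) (s : ℕ → V) (h0 : s 0 ≠ 0) (h1 : π • s 0 = 0)
    (hs : ∀ j, π • s (j + 1) = s j) (j : ℕ) : ∀ r : R, π • r • s j = 0 → ∃ r' : R, r • s j = r' • s 0 := by
  induction j with
  | zero => intro r _; exact ⟨r, rfl⟩
  | succ j ih =>
    intro r hr
    by_cases hd : π ∣ r
    · obtain ⟨r', rfl⟩ := hd
      have h2 : (π * r') • s (j + 1) = r' • s j := by
        rw [mul_comm, mul_smul, hs j]
      rw [h2] at hr ⊢
      exact ih r' hr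
    · exfalso
      have h2 : r • s j = 0 := by
        rw [← hs j, smul_comm]
        exact hr
      obtain ⟨α, β, hab⟩ := coprime_pow hπ hd (j + 1)
      have h3 : s j = (α * r + β * π ^ (j + 1)) • s j := by rw [hab, one_smul]
      rw [add_smul, mul_smul, mul_smul, h2, r2_Ra3_kill s h1 hs j, smul_zero, smul_zero, add_zero] at h3
      exact r2_Ra3_ne s h0 hs j h3

theorem r2_Ra3_div {π : R} (hπ : Prime π) (s : ℕ → V) (h1 : π • s 0 = 0)
    (hs : ∀ j, π • s (j + 1) = s j) (r : R) (hr : r ≠ 0) (x : V) (hx : x ∈ r2_Ra3_E s hs) :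
    ∃ y ∈ r2_Ra3_E s hs, r • y = x := by
  obtain ⟨c, j, rfl⟩ := hx
  have hfin : ∃ n : ℕ, ¬ π ^ (n + 1) ∣ r := by
    have := FiniteMultiplicity.of_prime_left hπ hr
    exact this
  obtain ⟨n, hn⟩ := hfin
  obtain ⟨a, _, u, rfl, hu⟩ := exists_pow_mul n r hn
  obtain ⟨α, β, hab⟩ := coprime_pow hπ hu (j + a + 1)
  refine ⟨(α * c) • s (j + a), ⟨_, _, rfl⟩, ?_⟩
  have h3 : c • s (j + a) = (α * u) • c • s (j + a) := by
    have h4 : c • s (j + a) = (α * u + β * π ^ (j + a + 1)) • c • s (j + a) := by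
      rw [hab, one_smul]
    rw [add_smul, mul_smul β, smul_comm (π ^ (j + a + 1)) c, r2_Ra3_kill s h1 hs (j + a), smul_zero,
      smul_zero, add_zero] at h4
    exact h4
  calc (π ^ a * u) • (α * c) • s (j + a) = π ^ a • ((α * u) • c • s (j + a)) := by
        rw [← mul_smul, ← mul_smul, ← mul_smul]
        congr 1
        ring
    _ = π ^ a • c • s (j + a) := by rw [← h3]
    _ = c • s j := by rw [smul_comm, r2_Ra3_pow s hs a j]

/-- Step 5: `E = {r • s j}`; `retract_of_divisible` -/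
theorem exists_PR_of_seq {π : R} (hπ : Prime π) (s : ℕ → V) (h0 : s 0 ≠ 0) (h1 : π • s 0 = 0)
    (hs : ∀ j, π • s (j + 1) = s j) :
    ∃ E : Submodule R V, s 0 ∈ E ∧ (∀ v ∈ E, ∃ n : ℕ, π ^ n • v = 0) ∧ (∀ v ∈ E, ∃ u ∈ E, π • u = v) ∧
      (∀ v ∈ E, π • v = 0 → ∃ r : R, v = r • s 0) ∧ ∃ e : V →ₗ[R] E, ∀ y : E, e y = y := by
  refine ⟨r2_Ra3_E s hs, ⟨1, 0, (one_smul _ _).symm⟩, ?_, ?_, ?_, ?_⟩
  · rintro v ⟨r, j, rfl⟩
    exact ⟨j + 1, by rw [smul_comm, r2_Ra3_kill s h1 hs j, smul_zero]⟩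
  · intro v hv
    exact r2_Ra3_div hπ s h1 hs π hπ.ne_zero v hv
  · rintro v ⟨r, j, rfl⟩ hv
    exact r2_Ra3_soc hπ s h0 h1 hs j r hv
  · exact retract_of_divisible _ fun r hr x hx => r2_Ra3_div hπ s h1 hs r hr x hx

end SAlg
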