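import Pool.Agent.Lib.MP_b9fd58_lc.R2.Ra2
import Pool.Agent.Lib.MP_b9fd58_lc.R2.Ra3

/-!
# Stage 2, stream R2: divisible submodules (IV)
-/

set_option autoImplicit false

namespace SAlg

open Function

variable {k R : Type} [Field k] [CommRing R] [IsDomain R] [IsPrincipalIdealRing R] [Algebra k R]
  {V : Type} [AddCommGroup V] [Module k V] [Module R V] [IsScalarTower k R V]

/-- the main statement of this file -/
theorem exists_PR_sub {π : R} (hπ : Prime π) {V₁ : Type} [AddCommGroup V₁] [Module R V₁] {g : R} (hg0 : g ≠ 0)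
    (hg : ∀ v : V₁, g • v = 0) {x : V₁} {f : V₁ →ₗ[R] V} {c : R} (hz0 : c • f x ≠ 0) (hz : π • c • f x = 0)
    (hinf : ∀ n : ℕ, ∃ w : V, c • f x = π ^ n • w)
    (F : Submodule k V) (hF : FiniteDimensional k F) (hfx : ∀ f' : V₁ →ₗ[R] V, f' x ∈ F) :
    ∃ E : Submodule R V, c • f x ∈ E ∧ (∀ v ∈ E, ∃ n : ℕ, π ^ n • v = 0) ∧ (∀ v ∈ E, ∃ u ∈ E, π • u = v) ∧
      (∀ v ∈ E, π • v = 0 → ∃ r : R, v = r • c • f x) ∧ ∃ e : V →ₗ[R] E, ∀ y : E, e y = y := by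
  obtain ⟨n, hn⟩ := exists_bound hπ hg0 hg hz0 hz F hF hfx
  obtain ⟨s, hs0, hs⟩ := exists_seq hn (c • f x) hz hinf
  obtain ⟨E, h1, h2, h3, h4, h5⟩ := exists_PR_of_seq hπ s (by rw [hs0]; exact hz0) (by rw [hs0]; exact hz) hs
  rw [hs0] at h1
  simp only [hs0] at h4
  exact ⟨E, h1, h2, h3, h4, h5⟩

end SAlg
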