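import Pool.Agent.Lib.MP_b9fd58_lc.R.AlgD

/-!
# Stage 2, stream R2: the reason why a datum is not closed

The proof of `three_types` is the proof of `four_types` (`AlgD.lean`), restricted to one datum `q`; instead of the transfer to
the other data one returns the elements. The first condition `c1` is easier: `F1` says that `r V` is killed by some `h ≠ 0`,
so `V` is killed by `h * r ≠ 0` and the height of the socle element is finite (`inf_height_zero`).
-/

set_option autoImplicit false

namespace SAlg

open Function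

variable {R : Type} [CommRing R] [IsDomain R] [IsPrincipalIdealRing R] {A : Type} [AddCommGroup A]

theorem three_types (q : RDat.{0, 0, 0} R A) (V : Type) [AddCommGroup V] [Module R V] (X : R)
    (hX : Bijective fun x : V => X • x) (hq : ¬ q.Closed V)
    (F1 : ∀ r ∈ q.Om, r ≠ 0 → ∃ h : R, h ≠ 0 ∧ ∀ v : V, h • r • v = 0) :
    (∃ π : R, Prime π ∧ ¬ π ∣ X ∧ ∃ n : ℕ,
      (∃ (ι : (R ⧸ Ideal.span {π ^ (n + 1)}) →ₗ[R] V)
        (e : V →ₗ[R] (R ⧸ Ideal.span {π ^ (n + 1)})), ∀ x, e (ι x) = x) ∧
      ¬ q.Closed (R ⧸ Ideal.span {π ^ (n + 1)})) ∨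
    (∃ π : R, Prime π ∧ ¬ π ∣ X ∧ ∃ x ∈ q.S2, ∃ (f : q.V1 →ₗ[R] V) (c : R), c • f x ≠ 0 ∧ π • c • f x = 0 ∧
      ∀ n : ℕ, ∃ w : V, c • f x = π ^ n • w) ∨
    (∃ π : R, Prime π ∧ ¬ π ∣ X ∧ ∃ u ∈ q.S3, ∃ (G : V →ₗ[R] q.V2) (c : R) (t : V), u (c • G t) ≠ 0 ∧
      (∀ y : V, u (c • G (π • y)) = 0) ∧ ∀ (n : ℕ) (v : V), π ^ n • v = 0 → u (c • G v) = 0) := by
  classical
  -- elements killed by a prime
  have hXtor : ∀ (π : R) (z : V), z ≠ 0 → π • z = 0 → ¬ π ∣ X := by
    rintro π z hz0 hz ⟨c, hc⟩
    apply hz0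
    apply hX.1
    simp only [smul_zero]
    rw [hc, mul_comm, mul_smul, hz, smul_zero]
  by_cases hc1 : ∀ r ∈ q.Om, ∀ v : V, r • v = 0
  · -- conditions 2, 3, 4
    by_cases hc2 : ∀ x ∈ q.S2, ∀ f : q.V1 →ₗ[R] V, f x = 0
    · by_cases hc3 : ∀ l ∈ q.S3, ∀ (G : V →ₗ[R] q.V2) (x : V), l (G x) = 0
      · -- condition 4
        have hc4 : ¬ ∀ o ∈ q.S4, ∀ (f : q.V1 →ₗ[R] V) (G : V →ₗ[R] q.V2), o (G ∘ₗ f) = 0 :=
          fun h => hq ⟨hc1, hc2, hc3, h⟩
        push Not at hc4
        obtain ⟨o, ho, f, G, hoG⟩ := hc4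
        obtain ⟨π, hπ, n, y, hPS, f', G', hne⟩ := both_case q.g1 q.g2 q.g1_ne q.g2_ne q.kill1
          q.kill2 o (LinearMap.ker f) V f G rfl hoG
        obtain ⟨ι, e, hιe, hι1, -⟩ := exists_split hπ hPS
        left
        refine ⟨π, hπ, ?_, n, ⟨ι, e, hιe⟩, fun h => hne (h.c4 o ho f' G')⟩
        refine hXtor π (π ^ n • y) ?_ ?_
        · intro h0
          apply hPS.2 0
          rw [h0, smul_zero]
        · rw [smul_smul, ← pow_succ']
          exact hPS.1
      · push Not at hc3
        obtain ⟨l, hl, G, x, hlx⟩ := hc3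
        -- the functional `z = l ∘ (c G)`, killed by a prime
        let J : Ideal R :=
          { carrier := {d | ∀ y, l (d • G y) = 0}
            add_mem' := fun {a b} ha hb y => by
              rw [add_smul, map_add, ha y, hb y, add_zero]
            zero_mem' := fun y => by rw [zero_smul, map_zero]
            smul_mem' := fun r d hd y => by
              rw [smul_eq_mul, mul_comm, mul_smul, ← map_smul]
              exact hd (r • y) }
        have hJ : ∀ d : R, d ∈ J ↔ ∀ y, l (d • G y) = 0 := fun d => Iff.rfl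
        obtain ⟨a, ha⟩ := (IsPrincipalIdealRing.principal J).principal
        have hJa : ∀ d : R, d ∈ J ↔ a ∣ d := by
          intro d
          rw [ha]
          exact Ideal.mem_span_singleton
        have hag : a ∣ q.g2 := by
          rw [← hJa, hJ]
          intro y
          rw [q.kill2, map_zero]
        have ha0 : a ≠ 0 := by
          rintro rfl
          exact q.g2_ne (zero_dvd_iff.1 hag)
        have hau : ¬ IsUnit a := by
          intro hu
          have h1 : (1 : R) ∈ J := (hJa 1).2 hu.dvd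
          have := (hJ 1).1 h1 x
          rw [one_smul] at this
          exact hlx this
        obtain ⟨π, hπ, c, hac⟩ := WfDvdMonoid.exists_irreducible_factor hau ha0
        have hπ' := hπ.prime
        have hc0 : c ≠ 0 := by
          rintro rfl
          rw [mul_zero] at hac
          exact ha0 hac
        have hcJ : c ∉ J := by
          rw [hJa, hac]
          rintro ⟨d, hd⟩
          apply hπ.not_isUnit
          have h2 : c * (π * d) = c * 1 := by
            rw [mul_one]
            calc c * (π * d) = π * c * d := by ring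
              _ = c := hd.symm
          exact IsUnit.of_mul_eq_one _ (mul_left_cancel₀ hc0 h2)
        have haJ : a ∈ J := (hJa a).2 dvd_rfl
        rw [hJ] at hcJ haJ
        push Not at hcJ
        obtain ⟨t, ht⟩ := hcJ
        let z : V →+ A :=
          { toFun := fun y => l (c • G y)
            map_zero' := by rw [map_zero, smul_zero, map_zero]
            map_add' := fun y y' => by rw [map_add, smul_add, map_add] }
        have hz : ∀ y, z y = l (c • G y) := fun y => rfl
        have hzπ : ∀ y, z (π • y) = 0 := by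
          intro y
          rw [hz]
          have h1 : c • G (π • y) = a • G y := by
            rw [map_smul, smul_smul, mul_comm, ← hac]
          rw [h1]
          exact haJ y
        have hπX : ¬ π ∣ X := by
          rintro ⟨d, hd⟩
          obtain ⟨t', ht'⟩ := hX.2 t
          simp only at ht'
          apply ht
          rw [← hz, ← ht', hd, mul_smul]
          exact hzπ _
        rcases coheight_cases π z hzπ with hinf | ⟨n, w, hw, hPS⟩
        · right; right
          exact ⟨π, hπ', hπX, l, hl, G, c, t, ht, hzπ, fun n v hv => hinf n v hv⟩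
        · obtain ⟨ι, e, hιe, hι1, he⟩ := exists_split hπ' hPS
          left
          refine ⟨π, hπ', hπX, n, ⟨ι, e, hιe⟩, fun h => ?_⟩
          apply hw
          have h1 := h.c3 l hl (G ∘ₗ ι) (Ideal.Quotient.mk _ c)
          have h2 : (G ∘ₗ ι) (Ideal.Quotient.mk _ c) = c • G w := by
            have h3 : (Ideal.Quotient.mk (Ideal.span {π ^ (n + 1)}) c) =
                c • (1 : R ⧸ Ideal.span {π ^ (n + 1)}) := by
              show _ = Ideal.Quotient.mk _ (c * 1)
              rw [mul_one]
            rw [LinearMap.comp_apply, h3, map_smul, map_smul, hι1]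
          rw [h2] at h1
          exact h1
    · push Not at hc2
      obtain ⟨x, hx, f, hfx⟩ := hc2
      obtain ⟨π, hπ, -, c, hc, hπc⟩ := exists_socle (f x) hfx q.g1 q.g1_ne
        (by rw [← map_smul, q.kill1, map_zero])
      have hπX := hXtor π _ hc hπc
      rcases height_cases π (c • f x) hπc with hinf | ⟨n, w, hw, hPS⟩
      · -- infinite height
        right; left
        exact ⟨π, hπ, hπX, x, hx, f, c, hc, hπc, hinf⟩
      · obtain ⟨ι, e, hιe, hι1, he⟩ := exists_split hπ hPS
        left
        refine ⟨π, hπ, hπX, n, ⟨ι, e, hιe⟩, fun h => ?_⟩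
        have h1 := h.c2 x hx (e ∘ₗ f)
        apply pow_ne_zero_quot hπ n
        rw [← he, ← map_smul, ← hw, map_smul]
        rw [LinearMap.comp_apply] at h1
        rw [h1, smul_zero]
  · push Not at hc1
    obtain ⟨r, hr, v, hrv⟩ := hc1
    have hr0 : r ≠ 0 := by
      rintro rfl
      exact hrv (zero_smul _ _)
    obtain ⟨h, hh0, hh⟩ := F1 r hr hr0
    have hg0 : h * r ≠ 0 := mul_ne_zero hh0 hr0
    have hkill : ∀ v : V, (h * r) • v = 0 := fun v => by rw [mul_smul]; exact hh v
    obtain ⟨π, hπ, -, c, hc, hπc⟩ := exists_socle (r • v) hrv (h * r) hg0 (hkill _)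
    have hπX := hXtor π _ hc hπc
    rcases height_cases π (c • r • v) hπc with hinf | ⟨n, w, hw, hPS⟩
    · exact absurd (inf_height_zero hπ (h * r) hg0 hkill _ hπc hinf) hc
    · obtain ⟨ι, e, hιe, hι1, he⟩ := exists_split hπ hPS
      left
      refine ⟨π, hπ, hπX, n, ⟨ι, e, hιe⟩, fun h => ?_⟩
      have h1 := h.c1 r hr (e v)
      apply pow_ne_zero_quot hπ n
      rw [← he, ← map_smul, ← hw, map_smul, map_smul, h1, smul_zero]

/-- in the third case the functional `u` is not zero on the `π`-primary part of `V₂` (compare the end of the case `hc3` in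
the proof of `four_types`) -/
theorem primary_of_three (q : RDat.{0, 0, 0} R A) {V : Type} [AddCommGroup V] [Module R V] {π : R} (hπ : Prime π)
    {u : q.V2 →+ A} {G : V →ₗ[R] q.V2} {c : R} {t : V} (h1 : u (c • G t) ≠ 0)
    (h2 : ∀ y : V, u (c • G (π • y)) = 0) : ∃ (n : ℕ) (x : q.V2), π ^ n • x = 0 ∧ u x ≠ 0 := by
  by_contra hcon
  push Not at hcon
  obtain ⟨i₀, s, hgs, hs⟩ := exists_pow_mul' hπ q.g2_ne
  obtain ⟨α, β, hαβ⟩ := hs.pow_right (n := i₀ + 1)
  apply h1
  have h3 : u ((α * s) • c • G t) = 0 := by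
    apply hcon (i₀ + 1)
    rw [smul_smul, show π ^ (i₀ + 1) * (α * s) = (π * α) * (π ^ i₀ * s) by ring,
      ← hgs, mul_smul, q.kill2, smul_zero]
  have h4 : u ((β * π ^ (i₀ + 1)) • c • G t) = 0 := by
    have h5 : (β * π ^ (i₀ + 1)) • c • G t = c • G (π • (β * π ^ i₀) • t) := by
      rw [map_smul, map_smul, smul_smul, smul_smul, smul_smul]
      congr 1
      ring
    rw [h5]
    exact h2 _
  calc u (c • G t) = u ((α * s + β * π ^ (i₀ + 1)) • c • G t) := by
        rw [hαβ, one_smul]
    _ = 0 := by rw [add_smul, map_add, h3, h4, add_zero]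

end SAlg
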