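import Pool.Agent.Lib.MP_b9fd58_lc.R.Hi
import Pool.Agent.Lib.MP_b9fd58_lc.S2B

/-!
# Stage 2, stream R2: finite rank bounds the traces

The matrices of values of homomorphisms of the four kinds are computed as in `Hg.lean` (`open1`, `open2`, `open3`):
`f = gm X.ok h .. φ v`, `G = gm h Y.ok .. lam y` (`val_gm_gm`, `cof_sum`, `Enc.aeval`: value `lam (T ^ (-N) (s(T) v))`);
`f = mpE g`, `G = gm .. lam y` (value `lam (g x)`); `f = gm .. φ v`, `G = mpE g` (value `u (g v)`).
-/

set_option autoImplicit false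

namespace StrAlg

open Module Polynomial

variable {D : Dat} {k : Type} [Field k] {S : Sides D}

theorem r2_Rc1_ind {V : Type} [AddCommGroup V] [Module k V] (U : Submodule k V) (h : ¬ FiniteDimensional k U)
    (n : ℕ) : ∃ v : Fin n → V, (∀ j, v j ∈ U) ∧ LinearIndependent k v := by
  have h1 : (n : Cardinal) ≤ Module.rank k U := by
    have h2 : Cardinal.aleph0 ≤ Module.rank k U := by
      by_contra h3
      rw [not_le] at h3
      exact h (Module.rank_lt_aleph0_iff.1 h3)
    exact Cardinal.natCast_lt_aleph0.le.trans h2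
  obtain ⟨s, hs, hli⟩ := le_rank_iff_exists_linearIndependent_finset.1 h1
  let e : Fin n ≃ s := (Finset.equivFinOfCardEq hs).symm
  refine ⟨fun i => ((e i : s) : U), fun j => ((e j : s) : U).2, ?_⟩
  have h2 : LinearIndependent k (fun i : Fin n => ((e i : s) : U)) := hli.comp e e.injective
  exact h2.map' U.subtype U.ker_subtype

/-- a subspace with bounded dual systems is finite-dimensional -/
theorem fd_of_bound {V : Type} [AddCommGroup V] [Module k V] (U : Submodule k V) (N : ℕ)
    (h : ∀ (n : ℕ) (v : Fin n → V) (lam : Fin n → V →ₗ[k] k), (∀ j, v j ∈ U) →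
      (∀ i j, lam i (v j) = if i = j then 1 else 0) → n ≤ N) : FiniteDimensional k U := by
  by_contra hU
  obtain ⟨v, hv, hli⟩ := r2_Rc1_ind U hU (N + 1)
  have h2 : LinearIndependent k (fun j => Dual.eval k V (v j)) :=
    hli.map' (Dual.eval k V) (Module.eval_ker k V)
  obtain ⟨y, hy⟩ := s2a_dual (k := k) (F := Dual k V) (fun j => Dual.eval k V (v j)) h2
  have h3 := h (N + 1) v y hv (fun i j => hy i j)
  omega

/-- the same for a subspace of the dual space -/
theorem fd_of_bound' {V : Type} [AddCommGroup V] [Module k V] (U : Submodule k (V →ₗ[k] k)) (N : ℕ)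
    (h : ∀ (n : ℕ) (lam : Fin n → V →ₗ[k] k) (v : Fin n → V), (∀ i, lam i ∈ U) →
      (∀ i j, lam i (v j) = if i = j then 1 else 0) → n ≤ N) : FiniteDimensional k U := by
  by_contra hU
  obtain ⟨lam, hlam, hli⟩ := r2_Rc1_ind U hU (N + 1)
  obtain ⟨y, hy⟩ := s2a_dual (k := k) (F := V) lam hli
  have h3 := h (N + 1) lam y hlam (fun i j => by
    rw [hy j i]
    exact if_congr eq_comm rfl rfl)
  omega

/-- the rank of a block pair is at most the rank of the normal form (extend the homomorphisms by zero, compare the proof of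
`NF.opn_iff` in `GThA.lean`) -/
theorem rk_bpr_le (p : NF S k) (i : Fin p.m) (j : Fin p.m') (N : Md D k) :
    (bpr (p.X i) (p.Y j) (p.a i) (p.b j)).rk N ≤ p.pr.rk N := by
  refine ENat.forall_natCast_le_iff_le.1 fun n hn => ?_
  rw [Pr.rk_ge_iff] at hn ⊢
  obtain ⟨f, G, hf, hG, hval⟩ := hn
  refine ⟨fun a => LinearMap.comp (show (p.X i).M.C →ₗ[k] N.C from f a)
      (LinearMap.proj i : (∀ i, (p.X i).M.C) →ₗ[k] (p.X i).M.C),
    fun a => LinearMap.comp (LinearMap.single k (fun j => (p.Y j).M.C) j)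
      (show N.C →ₗ[k] (p.Y j).M.C from G a), ?_, ?_, ?_⟩
  · intro a g m
    exact hf a g (m i)
  · intro a g n
    have h5 := Md.pi_op_single (fun j => (p.Y j).M) g j (G a n)
    refine Eq.trans ?_ h5.symm
    exact congrArg (fun y => (Pi.single j y : ∀ j, (p.Y j).M.C)) (hG a g n)
  · intro a c
    have h1 := pi_bwd (k := k) (Y := fun j => (p.Y j).M.C) p.b j (G a (f c (p.a i)))
    exact h1.trans (hval a c)

end StrAlg
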