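import Pool.Agent.Lib.MP_b9fd58_lc.R.Hi
import Pool.Agent.Lib.MP_b9fd58_lc.S2B

/-!
# Stage 2, stream R2: dual systems from graph maps

Use `Pr.rk_ge_iff` (`S2B.lean`); the homomorphisms and values are as in `R/Hg.lean` (`open1`, `open2`, `open3`):
`f = gm X.ok h .. φ v`, `G = gm h Y.ok .. lam y` (`val_gm_gm`, `cof_sum`, `Enc.aeval`: the value is
`lam (T ^ (-N) (s(T) v))`); `f = mpE g`, `G = gm .. lam y` (value `lam (g x)`); `f = gm .. φ v`, `G = mpE g` (value `u (g v)`).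
-/

set_option autoImplicit false

namespace StrAlg

open Module Polynomial

variable {D : Dat} {k : Type} [Field k] {S : Sides D}

section
variable {c : Str S} {l : ℕ} {V : Type} [AddCommGroup V] [Module k V] {T : V ≃ₗ[k] V} {X Y : Blk S k} {a : X.M.C}
  {b : Dual k Y.M.C}

theorem rk_om (hl : c.MinPer l) (h : c.PerOK l T) {s : k[X]} (hs : s ∈ (rdat c l X Y a b).Om) (n : ℕ)
    (v : Fin n → V) (lam : Fin n → V →ₗ[k] k)
    (hv : ∀ i j, lam i (aeval T.toLinearMap s (v j)) = if i = j then 1 else 0) :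
    (n : ℕ∞) ≤ (bpr X Y a b).rk (c.ME l T h) := by
  obtain ⟨o, p, q, o', q', r, φ, y, N, h1, h2, henc⟩ := hs
  rw [Pr.rk_ge_iff]
  have hfin := cof_finite X Y a b c hl.1 o p q o' q' r φ y
  have hA : ∀ t, cof X Y a b c l o p q o' q' r φ y t ≠ 0 → t ∈ hfin.toFinset := by
    intro t ht
    rw [Set.Finite.mem_toFinset]
    exact ht
  refine ⟨fun j => gm X.ok h o p q φ (v j), fun i => gm h Y.ok o' q' r (lam i ∘ₗ (T ^ N).toLinearMap) y,
    fun j => gm_hom h1 φ (v j), fun i => gm_hom h2 _ y, fun i j => ?_⟩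
  have h3 := henc.aeval T (v j) hfin.toFinset hA
  have h4 := cof_sum X Y a b c hl.1 h o p q o' q' r φ y (v j) hfin.toFinset hA
  rw [← h4] at h3
  have h6 := val_gm_gm X Y a b h (fun p => c.Z_univ hl.2.1.2 p) o p q o' q' r φ (v j)
    (lam i ∘ₗ (T ^ N).toLinearMap) y
  rw [← hv i j, h3]
  exact h6

theorem rk_s2 (hl : c.MinPer l) (h : c.PerOK l T) {x : SAlg.EM X.T.toLinearMap}
    (hx : x ∈ (rdat c l X Y a b).S2) (n : ℕ) (f : Fin n → SAlg.EM X.T.toLinearMap →ₗ[k[X]] SAlg.EM T.toLinearMap)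
    (lam : Fin n → V →ₗ[k] k)
    (hv : ∀ i j, lam i ((SAlg.EM.of T.toLinearMap).symm (f j x)) = if i = j then 1 else 0) :
    (n : ℕ∞) ≤ (bpr X Y a b).rk (c.ME l T h) := by
  obtain ⟨hXc, o, p, r, y, ho, rfl⟩ := hx
  subst hXc
  obtain rfl := blk_l hl X rfl
  have hcomm : ∀ j, ∀ v : Fin X.n → k, emk (k := k) (f j) (X.T v) = T (emk (k := k) (f j) v) :=
    fun j v => emk_comm (f j) v
  rw [Pr.rk_ge_iff]
  refine ⟨fun j => mpE X.ok h (emk (f j)) (hcomm j), fun i => gm h Y.ok o p r (lam i) y,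
    fun j => mpE_hom _ (hcomm j), fun i => gm_hom ho (lam i) y, fun i j => ?_⟩
  have h3 : b ((gm h Y.ok o p r (lam i) y ∘ₗ mpE X.ok h (emk (f j)) (hcomm j)) a) =
      lam i (emk (f j) (OmV X Y a b o p r y)) := by
    rw [gm_comp_mpE, val_gm, OmV_val]
    rfl
  rw [← hv i j]
  exact h3

theorem rk_s3 (hl : c.MinPer l) (h : c.PerOK l T) {u : SAlg.EM Y.T.toLinearMap →+ k}
    (hu : u ∈ (rdat c l X Y a b).S3) (n : ℕ) (G : Fin n → SAlg.EM T.toLinearMap →ₗ[k[X]] SAlg.EM Y.T.toLinearMap)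
    (v : Fin n → SAlg.EM T.toLinearMap)
    (hv : ∀ i j, u (G i (v j)) = if i = j then 1 else 0) :
    (n : ℕ∞) ≤ (bpr X Y a b).rk (c.ME l T h) := by
  obtain ⟨hYc, o, p, r, φ, ho, hval⟩ := hu
  subst hYc
  obtain rfl := blk_l hl Y rfl
  have hcomm : ∀ i, ∀ v : V, emk (k := k) (G i) (T v) = Y.T (emk (k := k) (G i) v) :=
    fun i v => emk_comm (G i) v
  rw [Pr.rk_ge_iff]
  refine ⟨fun j => gm X.ok h o p r φ ((SAlg.EM.of T.toLinearMap).symm (v j)), fun i => mpE h Y.ok (emk (G i)) (hcomm i),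
    fun j => gm_hom ho φ _, fun i => mpE_hom _ (hcomm i), fun i j => ?_⟩
  have h3 : b ((mpE h Y.ok (emk (G i)) (hcomm i) ∘ₗ gm X.ok h o p r φ ((SAlg.EM.of T.toLinearMap).symm (v j))) a) =
      OmL X Y a b o p r φ (emk (G i) ((SAlg.EM.of T.toLinearMap).symm (v j))) := by
    rw [mpE_comp_gm, val_gm, OmL_val]
  rw [← hv i j]
  refine h3.trans ?_
  have h4 := hval (emk (G i) ((SAlg.EM.of T.toLinearMap).symm (v j)))
  rw [← h4]
  rfl

end

end StrAlg
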