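import Pool.Agent.Lib.MP_b9fd58_lc.R2.Rc1
import Pool.Agent.Lib.MP_b9fd58_lc.R2.Rc2

/-!
# Stage 2, stream R2: finite rank bounds the traces (II)
-/

set_option autoImplicit false

namespace StrAlg

open Module Polynomial

variable {D : Dat} {k : Type} [Field k] {S : Sides D}

section
variable {c : Str S} {l : ℕ} {V : Type} [AddCommGroup V] [Module k V] {T : V ≃ₗ[k] V} {X Y : Blk S k} {a : X.M.C}
  {b : Dual k Y.M.C}

theorem r2_Rc3_bound {x : ℕ∞} (hx : x ≠ ⊤) : ∃ N : ℕ, ∀ n : ℕ, (n : ℕ∞) ≤ x → n ≤ N := by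
  obtain ⟨N, rfl⟩ := ENat.ne_top_iff_exists.1 hx
  exact ⟨N, fun n hn => by exact_mod_cast hn⟩

/-- `c1`: `s(T) V` is finite-dimensional, so `V` is killed by `h * s` for some `h ≠ 0` (the characteristic polynomial of
`T` on `s(T) V`) -/
theorem fin_om (hl : c.MinPer l) (h : c.PerOK l T) {s : k[X]} (hs : s ∈ (rdat c l X Y a b).Om)
    (hfin : (bpr X Y a b).rk (c.ME l T h) ≠ ⊤) :
    ∃ g : k[X], g ≠ 0 ∧ ∀ v : SAlg.EM T.toLinearMap, g • s • v = 0 := by
  obtain ⟨N, hN⟩ := r2_Rc3_bound hfin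
  set U : Submodule k V := LinearMap.range (aeval T.toLinearMap s) with hU
  have hfd : FiniteDimensional k U := by
    refine fd_of_bound U N fun n v lam hv hlam => ?_
    have hv' : ∀ j, ∃ w, aeval T.toLinearMap s w = v j := fun j => hv j
    choose w hw using hv'
    refine hN n (rk_om hl h hs n w lam fun i j => ?_)
    rw [hw j]
    exact hlam i j
  have hinv : ∀ u ∈ U, T.toLinearMap u ∈ U := by
    rintro _ ⟨w, rfl⟩
    refine ⟨T.toLinearMap w, ?_⟩
    have h1 : aeval T.toLinearMap (s * Polynomial.X) w = aeval T.toLinearMap (Polynomial.X * s) w := by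
      rw [mul_comm]
    rw [map_mul, map_mul, aeval_X, Module.End.mul_apply, Module.End.mul_apply] at h1
    exact h1
  set TU : U →ₗ[k] U := T.toLinearMap.restrict hinv with hTU
  obtain ⟨g, hg⟩ := exists_emk (T₁ := TU) (T₂ := T.toLinearMap) U.subtype (fun v => rfl)
  refine ⟨TU.charpoly, (LinearMap.charpoly_monic _).ne_zero, fun v => ?_⟩
  obtain ⟨v, rfl⟩ := (SAlg.EM.of T.toLinearMap).surjective v
  have h1 : s • SAlg.EM.of T.toLinearMap v = g (SAlg.EM.of TU ⟨aeval T.toLinearMap s v, v, rfl⟩) := by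
    rw [hg, SAlg.EM.smul_of]
    rfl
  rw [h1, ← map_smul, SAlg.EM.smul_of, LinearMap.aeval_self_charpoly, LinearMap.zero_apply, map_zero, map_zero]

/-- `c2`: the values at `x` of all homomorphisms lie in a finite-dimensional space -/
theorem fin_s2 (hl : c.MinPer l) (h : c.PerOK l T) {x : SAlg.EM X.T.toLinearMap}
    (hx : x ∈ (rdat c l X Y a b).S2) (hfin : (bpr X Y a b).rk (c.ME l T h) ≠ ⊤) :
    ∃ F : Submodule k (SAlg.EM T.toLinearMap), FiniteDimensional k F ∧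
      ∀ f : SAlg.EM X.T.toLinearMap →ₗ[k[X]] SAlg.EM T.toLinearMap, f x ∈ F := by
  obtain ⟨N, hN⟩ := r2_Rc3_bound hfin
  let F : Submodule k (SAlg.EM T.toLinearMap) :=
    { carrier := {y | ∃ f : SAlg.EM X.T.toLinearMap →ₗ[k[X]] SAlg.EM T.toLinearMap, f x = y}
      zero_mem' := ⟨0, rfl⟩
      add_mem' := by
        rintro _ _ ⟨f, rfl⟩ ⟨g, rfl⟩
        exact ⟨f + g, rfl⟩
      smul_mem' := by
        rintro r _ ⟨f, rfl⟩
        refine ⟨(C r : k[X]) • f, ?_⟩
        rw [LinearMap.smul_apply, SAlg.C_smul_eq] }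
  refine ⟨F, ?_, fun f => ⟨f, rfl⟩⟩
  refine fd_of_bound F N fun n v lam hv hlam => ?_
  have hv' : ∀ j, ∃ f : SAlg.EM X.T.toLinearMap →ₗ[k[X]] SAlg.EM T.toLinearMap, f x = v j := fun j => hv j
  choose f hf using hv'
  refine hN n (rk_s2 hl h hx n f (fun i => lam i ∘ₗ (SAlg.EM.of T.toLinearMap).toLinearMap) fun i j => ?_)
  rw [LinearMap.comp_apply, hf j]
  exact hlam i j

/-- `c3`: the functionals `u ∘ G` lie in a finite-dimensional space -/
theorem fin_s3 (hl : c.MinPer l) (h : c.PerOK l T) {u : SAlg.EM Y.T.toLinearMap →+ k}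
    (hu : u ∈ (rdat c l X Y a b).S3) (hfin : (bpr X Y a b).rk (c.ME l T h) ≠ ⊤) :
    ∃ F : Submodule k (V →ₗ[k] k), FiniteDimensional k F ∧
      ∀ (G : SAlg.EM T.toLinearMap →ₗ[k[X]] SAlg.EM Y.T.toLinearMap) (lam : V →ₗ[k] k),
        (∀ v, lam v = u (G (SAlg.EM.of _ v))) → lam ∈ F := by
  obtain ⟨N, hN⟩ := r2_Rc3_bound hfin
  have husmul : ∀ (r : k) (y : SAlg.EM Y.T.toLinearMap), u (r • y) = r * u y := by
    obtain ⟨_, o, p, q, φ, _, hval⟩ := hu
    intro r y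
    obtain ⟨y, rfl⟩ := (SAlg.EM.of Y.T.toLinearMap).surjective y
    rw [← map_smul, hval, hval]
    exact (omLl X Y a b o p q φ).map_smul r y
  let F : Submodule k (V →ₗ[k] k) :=
    { carrier := {lam | ∃ G : SAlg.EM T.toLinearMap →ₗ[k[X]] SAlg.EM Y.T.toLinearMap,
        ∀ v, lam v = u (G (SAlg.EM.of _ v))}
      zero_mem' := ⟨0, fun v => by
        rw [LinearMap.zero_apply, LinearMap.zero_apply, map_zero]⟩
      add_mem' := by
        rintro _ _ ⟨f, hf⟩ ⟨g, hg⟩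
        refine ⟨f + g, fun v => ?_⟩
        rw [LinearMap.add_apply, LinearMap.add_apply, map_add, hf, hg]
      smul_mem' := by
        rintro r _ ⟨f, hf⟩
        refine ⟨(C r : k[X]) • f, fun v => ?_⟩
        rw [LinearMap.smul_apply, LinearMap.smul_apply, SAlg.C_smul_eq, husmul, hf, smul_eq_mul] }
  refine ⟨F, ?_, fun G lam hlam => ⟨G, hlam⟩⟩
  refine fd_of_bound' F N fun n lam v hlam hv => ?_
  have hG' : ∀ i, ∃ G : SAlg.EM T.toLinearMap →ₗ[k[X]] SAlg.EM Y.T.toLinearMap,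
      ∀ v, lam i v = u (G (SAlg.EM.of _ v)) := fun i => hlam i
  choose G hG using hG'
  refine hN n (rk_s3 hl h hu n G (fun j => SAlg.EM.of _ (v j)) fun i j => ?_)
  rw [← hG i]
  exact hv i j

end

end StrAlg
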