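import Pool.Agent.Lib.MP_b9fd58_lc.R.Hd2
import Pool.Agent.Lib.MP_b9fd58_lc.R.He1
import Pool.Agent.Lib.MP_b9fd58_lc.S2C

/-!
# Stage 2, stream R2: retracts of coefficient spaces
-/

set_option autoImplicit false

namespace StrAlg

open Module Polynomial

variable {D : Dat} {k : Type} [Field k] {S : Sides D}

section
variable {c : Str S} {l : ℕ} {V₁ V₂ : Type} [AddCommGroup V₁] [Module k V₁] [AddCommGroup V₂] [Module k V₂]
  {T₁ : V₁ ≃ₗ[k] V₁} {T₂ : V₂ ≃ₗ[k] V₂}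

/-- a retract of the coefficient space gives a retract of the band module (`mpE`, `mpE_hom`) -/
theorem ME_ret (h₁ : c.PerOK l T₁) (h₂ : c.PerOK l T₂) (ι : V₁ →ₗ[k] V₂) (e : V₂ →ₗ[k] V₁)
    (hι : ∀ v, ι (T₁ v) = T₂ (ι v)) (he : ∀ v, e (T₂ v) = T₁ (e v)) (h : ∀ v, e (ι v) = v) :
    (c.ME l T₁ h₁).Ret (c.ME l T₂ h₂) := by
  refine ⟨mpE h₁ h₂ ι hι, mpE h₂ h₁ e he, mpE_hom ι hι, mpE_hom e he, ?_⟩
  refine LinearMap.ext fun m => ?_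
  show mpE h₂ h₁ e he (mpE h₁ h₂ ι hι m) = m
  apply cfE_inj h₁
  funext p
  rw [cfE_mpE, cfE_mpE, h]

end

end StrAlg
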