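import Pool.Agent.Lib.MP_b9fd58_lc.R.Hd2
import Pool.Agent.Lib.MP_b9fd58_lc.R.He1
import Pool.Agent.Lib.MP_b9fd58_lc.S2C

/-!
# Stage 2, stream R2: double duals of band modules
-/

set_option autoImplicit false

namespace StrAlg

open Module Polynomial

variable {D : Dat} {k : Type} [Field k] {S : Sides D}

/-- two elements of the band module which agree on `range l` are equal -/
theorem r2_Re2_ext {c : Str S} {l : ℕ} (hl : 0 < l) {V : Type} [AddCommGroup V] [Module k V] {T : V ≃ₗ[k] V}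
    (h : c.PerOK l T) {m m' : ℤ → V} (hm : m ∈ (c.LB l T h).S) (hm' : m' ∈ (c.LB l T h).S)
    (he : ∀ p ∈ Finset.range l, m (p : ℤ) = m' (p : ℤ)) : m = m' := by
  have key : ∀ m : ℤ → V, m ∈ (c.LB l T h).S → ∀ p j : ℤ, (T ^ j) (m (p + j * l)) = m p := fun m hm p j =>
    (c.LB l T h).S_zpow hm p j
  funext q
  have hl' : (0 : ℤ) < l := by exact_mod_cast hl
  obtain ⟨r, hr⟩ : ∃ r : ℕ, (r : ℤ) = q % l := ⟨(q % l).toNat, Int.toNat_of_nonneg (Int.emod_nonneg _ hl'.ne')⟩
  have hrl : r ∈ Finset.range l := by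
    rw [Finset.mem_range]
    have := Int.emod_lt_of_pos q hl'
    omega
  have hq : q = (r : ℤ) + (q / l) * l := by
    rw [hr]
    have := Int.emod_add_mul_ediv q l
    linarith
  have h1 := key m hm r (q / l)
  have h2 := key m' hm' r (q / l)
  rw [← hq] at h1 h2
  apply (T ^ (q / (l : ℤ))).injective
  rw [h1, h2, he r hrl]

/-- the element of the double dual module given by an equivariant function -/
noncomputable def r2_Re2_psi {c : Str S} {l : ℕ} {V : Type} [AddCommGroup V] [Module k V] {T : V ≃ₗ[k] V}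
    (h : c.PerOK l T) (m : ℤ → Dual k (Dual k V)) : Dual k (Dual k (c.ME l T h).C) :=
  ∑ p ∈ Finset.range l, m (p : ℤ) ∘ₗ (ioE h (p : ℤ)).dualMap

theorem r2_Re2_psi_apply {c : Str S} {l : ℕ} {V : Type} [AddCommGroup V] [Module k V] {T : V ≃ₗ[k] V}
    (h : c.PerOK l T) (m : ℤ → Dual k (Dual k V)) (η : Dual k (c.ME l T h).C) :
    r2_Re2_psi h m η = ∑ p ∈ Finset.range l, m (p : ℤ) (η ∘ₗ ioE h (p : ℤ)) := by
  unfold r2_Re2_psi
  rw [LinearMap.sum_apply]
  rfl

/-- the function of an element of the double dual -/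
noncomputable def r2_Re2_fn {c : Str S} {l : ℕ} {V : Type} [AddCommGroup V] [Module k V] {T : V ≃ₗ[k] V}
    (h : c.PerOK l T) : Dual k (Dual k (c.ME l T h).C) →ₗ[k] (ℤ → Dual k (Dual k V)) :=
  LinearMap.pi fun p => (xiE h p).dualMap.dualMap

theorem r2_Re2_fn_apply {c : Str S} {l : ℕ} {V : Type} [AddCommGroup V] [Module k V] {T : V ≃ₗ[k] V}
    (h : c.PerOK l T) (Φ : Dual k (Dual k (c.ME l T h).C)) (p : ℤ) (ξ : Dual k V) :
    r2_Re2_fn h Φ p ξ = Φ (ξ ∘ₗ xiE h p) := rfl

theorem r2_Re2_fn_mem {c : Str S} {l : ℕ} {V : Type} [AddCommGroup V] [Module k V] {T : V ≃ₗ[k] V}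
    (h : c.PerOK l T) (h' : c.PerOK l T.dualMap.dualMap) (Φ : Dual k (Dual k (c.ME l T h).C)) :
    r2_Re2_fn h Φ ∈ (c.LB l T.dualMap.dualMap h').S := by
  refine ⟨?_, ?_⟩
  · intro p hp
    have h0 : xiE h p = 0 := by
      by_contra hne
      exact hp (xiE_ne h hne)
    refine LinearMap.ext fun ξ => ?_
    rw [r2_Re2_fn_apply, h0, LinearMap.comp_zero, map_zero]
    rfl
  · intro p
    refine LinearMap.ext fun ξ => ?_
    show r2_Re2_fn h Φ (p + l) (ξ ∘ₗ T.toLinearMap) = _
    rw [r2_Re2_fn_apply, r2_Re2_fn_apply]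
    congr 1
    refine LinearMap.ext fun m => ?_
    exact congrArg ξ (cfE_per h m p)

/-- the double dual of a band module is the band module of the double dual: `Θ Φ p ξ = Φ (ξ ∘ xiE h p)`. The inverse sends
`F` to `η ↦ ∑ p ∈ range l, F p (η ∘ ioE h p)`; use `band_val` for `η` and `xiE_dc` for the homomorphism property. -/
theorem ME_dd {c : Str S} {l : ℕ} (hl : 0 < l) {V : Type} [AddCommGroup V] [Module k V] {T : V ≃ₗ[k] V}
    (h : c.PerOK l T) (h' : c.PerOK l T.dualMap.dualMap) :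
    (c.ME l T h).dual.codual.Iso (c.ME l T.dualMap.dualMap h') := by
  let Θ : Dual k (Dual k (c.ME l T h).C) →ₗ[k] (c.ME l T.dualMap.dualMap h').C :=
    (toME h').toLinearMap ∘ₗ ((r2_Re2_fn h).codRestrict (c.LB l T.dualMap.dualMap h').S (r2_Re2_fn_mem h h'))
  have hΘ : ∀ Φ, cfE h' (Θ Φ) = r2_Re2_fn h Φ := fun Φ => rfl
  have hinj : Function.Injective Θ := by
    rw [injective_iff_map_eq_zero]
    intro Φ hΦ
    refine LinearMap.ext fun η => ?_
    have h1 : η = ∑ p ∈ Finset.range l, (η ∘ₗ ioE h (p : ℤ)) ∘ₗ xiE h (p : ℤ) := by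
      refine LinearMap.ext fun m => ?_
      rw [LinearMap.sum_apply]
      exact band_val hl η m
    rw [h1, map_sum, LinearMap.zero_apply]
    refine Finset.sum_eq_zero fun p _ => ?_
    rw [← r2_Re2_fn_apply, ← hΘ, hΦ, map_zero]
    rfl
  have hsurj : Function.Surjective Θ := by
    intro m
    refine ⟨r2_Re2_psi h (cfE h' m), ?_⟩
    apply cfE_inj h'
    rw [hΘ]
    refine r2_Re2_ext hl h' (r2_Re2_fn_mem h h' _) (cfE_mem h' m) ?_
    intro q hq
    refine LinearMap.ext fun ξ => ?_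
    rw [r2_Re2_fn_apply, r2_Re2_psi_apply]
    by_cases hqZ : (q : ℤ) ∈ c.Z
    · rw [Finset.sum_eq_single q]
      · congr 1
        refine LinearMap.ext fun v => ?_
        show ξ (cfE h (ioE h (q : ℤ) v) (q : ℤ)) = ξ v
        rw [cfE_ioE h hqZ]
        exact congrArg ξ ((c.LB l T h).spr_self q v)
      · intro p hp hne
        have h0 : (ξ ∘ₗ xiE h (q : ℤ)) ∘ₗ ioE h (p : ℤ) = 0 := by
          refine LinearMap.ext fun v => ?_
          show ξ (cfE h (ioE h (p : ℤ) v) (q : ℤ)) = 0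
          by_cases hpZ : (p : ℤ) ∈ c.Z
          · rw [cfE_ioE h hpZ, LB.spr_apply, if_neg, map_zero]
            intro hd
            apply hne
            rw [Finset.mem_range] at hp hq
            obtain ⟨j, hj⟩ := hd
            have hj' : (p : ℤ) - q = (l : ℤ) * j := hj
            have hlt : |(l : ℤ) * j| < l := by
              rw [← hj', abs_lt]
              constructor <;> omega
            have hj0 : j = 0 := by
              by_contra hjne
              have h1 : (1 : ℤ) ≤ |j| := Int.one_le_abs hjne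
              rw [abs_mul, Nat.abs_cast] at hlt
              nlinarith
            rw [hj0, mul_zero] at hj'
            omega
          · rw [ioE_zero h hpZ]
            simp
        rw [h0, map_zero]
      · intro hcon
        exact absurd hq hcon
    · have h0 : cfE h' m (q : ℤ) = 0 := cfE_zero h' hqZ
      have h1 : xiE h (q : ℤ) = 0 := by
        by_contra hne
        exact hqZ (xiE_ne h hne)
      rw [h0, LinearMap.zero_apply]
      refine Finset.sum_eq_zero fun p _ => ?_
      rw [h1]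
      simp
  refine ⟨LinearEquiv.ofBijective Θ ⟨hinj, hsurj⟩, ?_⟩
  intro g (Φ : Dual k (Dual k (c.ME l T h).C))
  show Θ ((c.ME l T h).dual.codual.Q.op g Φ) = (c.ME l T.dualMap.dualMap h').Q.op g (Θ Φ)
  apply cfE_inj h'
  rw [cfE_op, hΘ, hΘ]
  funext p
  refine LinearMap.ext fun ξ => ?_
  have hop : r2_Re2_fn h ((c.ME l T h).dual.codual.Q.op g Φ) p ξ =
      Φ ((ξ ∘ₗ xiE h p) ∘ₗ (c.ME l T h).Q.op g) := rfl
  rw [hop]
  cases g with
  | inl i =>
    have e1 : (ξ ∘ₗ xiE h p) ∘ₗ (c.ME l T h).Q.op (Sum.inl i) = if c.L.v p = i then ξ ∘ₗ xiE h p else 0 := by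
      refine LinearMap.ext fun n => ?_
      rw [LinearMap.comp_apply, LinearMap.comp_apply, (xiE_dc h p).1 i n]
      split_ifs
      · rfl
      · rw [map_zero]; rfl
    rw [e1, fop_inl]
    split_ifs
    · rfl
    · rw [map_zero]; rfl
  | inr α =>
    have e1 : (ξ ∘ₗ xiE h p) ∘ₗ (c.ME l T h).Q.op (Sum.inr α) = ∑ e : Bool,
        if c.L.lt e p = 0 ∧ S.ends.inA (c.L.v p) (c.L.sd e p) = some α then ξ ∘ₗ xiE h (st e p) else 0 := by
      refine LinearMap.ext fun n => ?_
      rw [LinearMap.comp_apply, LinearMap.comp_apply, (xiE_dc h p).2 α n, map_sum, LinearMap.sum_apply]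
      refine Finset.sum_congr rfl fun e _ => ?_
      split_ifs
      · rfl
      · rw [map_zero]; rfl
    rw [e1, fop_inr, map_sum, LinearMap.sum_apply]
    refine Finset.sum_congr rfl fun e _ => ?_
    split_ifs
    · rfl
    · rw [map_zero]; rfl

end StrAlg
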