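import Pool.Agent.Lib.MP_b9fd58_lc.R.Hk1
import Pool.Agent.Lib.MP_b9fd58_lc.If2Defs

/-!
# Stage 2, stream R2: from submodules of `EM T` to automorphisms
-/

set_option autoImplicit false

namespace StrAlg

open Module Polynomial

variable {k : Type} [Field k]

/-- A `k[X]`-submodule of `EM T` on which `X` is surjective carries an automorphism. -/
theorem exists_sub_aut {V : Type} [AddCommGroup V] [Module k V] (T : V ≃ₗ[k] V) (E : Submodule k[X] (SAlg.EM T.toLinearMap))
    (hE : ∀ v ∈ E, ∃ u ∈ E, (X : k[X]) • u = v) :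
    ∃ (T₀ : E ≃ₗ[k] E) (e : E ≃ₗ[k[X]] SAlg.EM T₀.toLinearMap), (∀ v, e v = SAlg.EM.of _ v) ∧
      ∀ v : E, ((T₀ v : E) : SAlg.EM T.toLinearMap) = (X : k[X]) • (v : SAlg.EM T.toLinearMap) := by
  have hX : Function.Bijective fun x : E => (X : k[X]) • x := by
    constructor
    · intro x y hxy
      have h1 : (X : k[X]) • x = (X : k[X]) • y := hxy
      have h2 : (X : k[X]) • (x : SAlg.EM T.toLinearMap) = (X : k[X]) • (y : SAlg.EM T.toLinearMap) :=
        congrArg Subtype.val h1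
      have h3 := congrArg (SAlg.EM.of T.toLinearMap).symm h2
      rw [SAlg.EM.of_symm_X_smul, SAlg.EM.of_symm_X_smul] at h3
      exact Subtype.ext ((SAlg.EM.of T.toLinearMap).symm.injective (T.injective h3))
    · intro y
      obtain ⟨u, hu, huy⟩ := hE y y.2
      exact ⟨⟨u, hu⟩, Subtype.ext huy⟩
  obtain ⟨T₀, e, he⟩ := exists_EM (k := k) E hX
  refine ⟨T₀, e, he, fun v => ?_⟩
  have h1 : e ((X : k[X]) • v) = (X : k[X]) • e v := map_smul e _ _
  rw [he, he, SAlg.EM.X_smul_of] at h1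
  have h2 : (X : k[X]) • v = T₀ v := (SAlg.EM.of T₀.toLinearMap).injective h1
  rw [← h2]
  rfl

/-- `E` is `π`-primary, `π`-divisible with `E[π] = R z`: then `X` is surjective on `E` and `IsPR π T₀` -/
theorem isPR_of_sub {V : Type} [AddCommGroup V] [Module k V] (T : V ≃ₗ[k] V) (E : Submodule k[X] (SAlg.EM T.toLinearMap))
    {π : k[X]} (hπ : Prime π) (hπX : ¬ π ∣ X) {z : SAlg.EM T.toLinearMap} (hz0 : z ≠ 0) (hz : π • z = 0) (hzE : z ∈ E)
    (h1 : ∀ v ∈ E, ∃ n : ℕ, π ^ n • v = 0) (h2 : ∀ v ∈ E, ∃ u ∈ E, π • u = v)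
    (h3 : ∀ v ∈ E, π • v = 0 → ∃ r : k[X], v = r • z) :
    ∃ (T₀ : E ≃ₗ[k] E) (e : E ≃ₗ[k[X]] SAlg.EM T₀.toLinearMap), (∀ v, e v = SAlg.EM.of _ v) ∧
      (∀ v : E, ((T₀ v : E) : SAlg.EM T.toLinearMap) = (X : k[X]) • (v : SAlg.EM T.toLinearMap)) ∧
      IsPR π T₀.toLinearMap := by
  have htors : ∀ v : E, ∃ n : ℕ, π ^ n • v = 0 := by
    intro v
    obtain ⟨n, hn⟩ := h1 v v.2
    exact ⟨n, Subtype.ext hn⟩
  have hbij := smul_bijective_of_coprime (V := E) (coprime_X (prime_natDegree hπ hπX).2) htors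
  obtain ⟨T₀, e, he, hT⟩ := exists_sub_aut T E (fun v hv => by
    obtain ⟨u, hu⟩ := hbij.2 ⟨v, hv⟩
    exact ⟨u, u.2, congrArg Subtype.val hu⟩)
  have hval : ∀ (r : k[X]) (v : E), aeval T₀.toLinearMap r v = r • v := by
    intro r v
    have g1 : e (r • v) = r • e v := map_smul e _ _
    rw [he, he, SAlg.EM.smul_of] at g1
    exact ((SAlg.EM.of T₀.toLinearMap).injective g1).symm
  refine ⟨T₀, e, he, hT, ?_, ?_, ?_⟩
  · intro v
    obtain ⟨n, hn⟩ := htors v
    exact ⟨n, by rw [hval]; exact hn⟩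
  · intro v
    obtain ⟨u, hu, huv⟩ := h2 v v.2
    exact ⟨⟨u, hu⟩, by rw [hval]; exact Subtype.ext huv⟩
  · have hz' : π • (⟨z, hzE⟩ : E) = 0 := Subtype.ext hz
    have hz0' : (⟨z, hzE⟩ : E) ≠ 0 := fun h => hz0 (congrArg Subtype.val h)
    let ψ : (k[X] ⧸ Ideal.span {π}) →ₗ[k[X]] E :=
      Submodule.liftQ (Ideal.span {π}) (LinearMap.toSpanSingleton k[X] E ⟨z, hzE⟩) (by
        intro r hr
        obtain ⟨s, rfl⟩ := Ideal.mem_span_singleton'.1 hr
        rw [LinearMap.mem_ker, LinearMap.toSpanSingleton_apply, mul_smul, hz', smul_zero])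
    have hψ : ∀ r : k[X], ψ (Submodule.Quotient.mk r) = r • (⟨z, hzE⟩ : E) := fun r => rfl
    have hinj : Function.Injective (ψ.restrictScalars k) := by
      rw [injective_iff_map_eq_zero]
      intro x hx
      obtain ⟨r, rfl⟩ := Submodule.Quotient.mk_surjective _ x
      have g1 : r • (⟨z, hzE⟩ : E) = 0 := hx
      rw [Submodule.Quotient.mk_eq_zero]
      refine Ideal.mem_span_singleton.2 ?_
      by_contra hcon
      obtain ⟨a, b, hab⟩ := (hπ.irreducible.coprime_iff_not_dvd.2 hcon)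
      apply hz0'
      calc (⟨z, hzE⟩ : E) = (a * π + b * r) • (⟨z, hzE⟩ : E) := by rw [hab, one_smul]
        _ = 0 := by rw [add_smul, mul_smul, mul_smul, g1, hz', smul_zero, smul_zero, add_zero]
    have hrange : LinearMap.range (ψ.restrictScalars k) = LinearMap.ker (aeval T₀.toLinearMap π) := by
      ext v
      rw [LinearMap.mem_range, LinearMap.mem_ker, hval]
      constructor
      · rintro ⟨x, rfl⟩
        obtain ⟨r, rfl⟩ := Submodule.Quotient.mk_surjective _ x
        show π • (r • (⟨z, hzE⟩ : E)) = 0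
        rw [smul_comm, hz', smul_zero]
      · intro hv
        obtain ⟨r, hr⟩ := h3 v v.2 (congrArg Subtype.val hv)
        exact ⟨Submodule.Quotient.mk r, Subtype.ext hr.symm⟩
    rw [← hrange, LinearMap.finrank_range_of_inj hinj]
    exact finrank_quotient_span_eq_natDegree

/-- polynomials in the dual automorphism -/
theorem aeval_dualMap {V : Type} [AddCommGroup V] [Module k V] (T : V ≃ₗ[k] V) (g : k[X]) (ξ : Dual k V) (v : V) :
    (aeval T.dualMap.toLinearMap g ξ) v = ξ (aeval T.toLinearMap g v) := by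
  have key : ∀ (n : ℕ) (ξ : Dual k V) (v : V),
      ((T.dualMap.toLinearMap ^ n) ξ) v = ξ ((T.toLinearMap ^ n) v) := by
    intro n
    induction n with
    | zero => intro ξ v; rfl
    | succ n ih =>
      intro ξ v
      rw [pow_succ, Module.End.mul_apply, ih, pow_succ', Module.End.mul_apply]
      rfl
  induction g using Polynomial.induction_on' with
  | add p q hp hq =>
    have h1 : (aeval T.dualMap.toLinearMap (p + q) ξ) v =
        (aeval T.dualMap.toLinearMap p ξ) v + (aeval T.dualMap.toLinearMap q ξ) v := by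
      rw [map_add, LinearMap.add_apply]
      rfl
    have h2 : aeval T.toLinearMap (p + q) v = aeval T.toLinearMap p v + aeval T.toLinearMap q v := by
      rw [map_add, LinearMap.add_apply]
    rw [h1, h2, hp, hq]
    exact (map_add ξ _ _).symm
  | monomial n a =>
    rw [aeval_monomial, aeval_monomial, Module.End.mul_apply, Module.End.mul_apply,
      Module.algebraMap_end_apply, Module.algebraMap_end_apply, map_smul, ← key]
    rfl

end StrAlg
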