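import Pool.Agent.Lib.MP_b9fd58_lc.R2.Ra4
import Pool.Agent.Lib.MP_b9fd58_lc.R2.Rb
import Pool.Agent.Lib.MP_b9fd58_lc.R2.Rc3
import Pool.Agent.Lib.MP_b9fd58_lc.R2.Re1
import Pool.Agent.Lib.MP_b9fd58_lc.R2.Re2
import Pool.Agent.Lib.MP_b9fd58_lc.R2.Rf
import Pool.Agent.Lib.MP_b9fd58_lc.S2D

/-!
# Stage 2, stream R2: the step theorem for bands
-/

set_option autoImplicit false

namespace StrAlg

open Module Polynomial

variable {D : Dat} {k : Type} [Field k] {S : Sides D}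

theorem step_of_ret {M N : Md D k} (h : M.Ret N) : ∃ N2 : Md D k, ∀ p : Pr D k, p.rk N = p.rk M + p.rk N2 := by
  obtain ⟨N2, hd⟩ := h.dec
  exact ⟨N2, fun p => p.rk_dec hd⟩

/-- retracts over `k[X]` give retracts of band modules -/
theorem ME_ret_emk {c : Str S} {l : ℕ} {V₁ V₂ : Type} [AddCommGroup V₁] [Module k V₁] [AddCommGroup V₂] [Module k V₂]
    {T₁ : V₁ ≃ₗ[k] V₁} {T₂ : V₂ ≃ₗ[k] V₂} (h₁ : c.PerOK l T₁) (h₂ : c.PerOK l T₂)
    (ι : SAlg.EM T₁.toLinearMap →ₗ[k[X]] SAlg.EM T₂.toLinearMap)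
    (e : SAlg.EM T₂.toLinearMap →ₗ[k[X]] SAlg.EM T₁.toLinearMap) (h : ∀ v, e (ι v) = v) :
    (c.ME l T₁ h₁).Ret (c.ME l T₂ h₂) :=
  ME_ret h₁ h₂ (emk ι) (emk e) (fun v => emk_comm ι v) (fun v => emk_comm e v) (fun v => by
    show (SAlg.EM.of T₁.toLinearMap).symm (e (ι (SAlg.EM.of T₁.toLinearMap v))) = v
    rw [h]; rfl)

section dual
variable {V : Type} [AddCommGroup V] [Module k V] {V₂ : Type} [AddCommGroup V₂] [Module k V₂] [FiniteDimensional k V₂]
  {T : V ≃ₗ[k] V} {T₂ : V₂ ≃ₗ[k] V₂}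

/-- the transpose of a `k[X]`-linear map -/
theorem exists_tr (G : SAlg.EM T.toLinearMap →ₗ[k[X]] SAlg.EM T₂.toLinearMap) :
    ∃ f : SAlg.EM T₂.dualMap.toLinearMap →ₗ[k[X]] SAlg.EM T.dualMap.toLinearMap,
      ∀ ξ : Dual k V₂, f (SAlg.EM.of _ ξ) = SAlg.EM.of _ (ξ ∘ₗ emk G) := by
  obtain ⟨f, hf⟩ := exists_emk (T₁ := T₂.dualMap.toLinearMap) (T₂ := T.dualMap.toLinearMap) (emk G).dualMap (by
    intro ξ
    refine LinearMap.ext fun v => ?_
    show ξ (T₂ (emk G v)) = ξ (emk G (T v))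
    exact congrArg ξ (emk_comm G v).symm)
  exact ⟨f, fun ξ => hf ξ⟩

/-- every `k[X]`-linear map between the dual modules is a transpose -/
theorem of_tr (f : SAlg.EM T₂.dualMap.toLinearMap →ₗ[k[X]] SAlg.EM T.dualMap.toLinearMap) :
    ∃ G : SAlg.EM T.toLinearMap →ₗ[k[X]] SAlg.EM T₂.toLinearMap,
      ∀ ξ : Dual k V₂, emk f ξ = ξ ∘ₗ emk G := by
  obtain ⟨G₁, hG₁⟩ := S2D_transpose (k := k) (B := V₂) (N := V) (emk f)
  obtain ⟨G, hG⟩ := exists_emk (T₁ := T.toLinearMap) (T₂ := T₂.toLinearMap) G₁ (by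
    intro v
    refine S2D_sep (k := k) fun φ => ?_
    have h1 := hG₁ (T v) φ
    have h2 := hG₁ v (T₂.dualMap φ)
    have h3 := LinearMap.congr_fun (emk_comm f φ) v
    calc φ (G₁ (T v)) = emk f φ (T v) := h1
      _ = (T.dualMap (emk f φ)) v := rfl
      _ = emk f (T₂.dualMap φ) v := h3.symm
      _ = (T₂.dualMap φ) (G₁ v) := h2.symm
      _ = φ (T₂ (G₁ v)) := rfl)
  refine ⟨G, fun ξ => LinearMap.ext fun v => ?_⟩
  have h1 : emk G v = G₁ v := congrArg (SAlg.EM.of T₂.toLinearMap).symm (hG v)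
  show emk f ξ v = ξ (emk G v)
  rw [h1]
  exact (hG₁ v ξ).symm

end dual

/-- the third case: a summand of the dual space -/
theorem case_dual {c : Str S} {l : ℕ} (hl : c.MinPer l) {V : Type} [AddCommGroup V] [Module k V] {T : V ≃ₗ[k] V}
    (h : c.PerOK l T) (p0 : NF S k) (i : Fin p0.m) (j : Fin p0.m')
    (hfin : (bpr (p0.X i) (p0.Y j) (p0.a i) (p0.b j)).rk (c.ME l T h) ≠ ⊤) {π : k[X]} (hπ : Prime π) (hπX : ¬ π ∣ X)
    {u : SAlg.EM (p0.Y j).T.toLinearMap →+ k} (hu : u ∈ (rdat c l (p0.X i) (p0.Y j) (p0.a i) (p0.b j)).S3)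
    {G : SAlg.EM T.toLinearMap →ₗ[k[X]] SAlg.EM (p0.Y j).T.toLinearMap} {d : k[X]} {t : SAlg.EM T.toLinearMap}
    (h3 : u (d • G t) ≠ 0) (h4 : ∀ y, u (d • G (π • y)) = 0)
    (h5 : ∀ (n : ℕ) (v : SAlg.EM T.toLinearMap), π ^ n • v = 0 → u (d • G v) = 0) :
    ∃ (W : Type) (_ : AddCommGroup W) (_ : Module k W) (T₀ : W ≃ₗ[k] W) (hok : c.PerOK l T₀.dualMap),
      IsPR π T₀.toLinearMap ∧ p0.pr.Opn (c.ME l T₀.dualMap hok) ∧
      ∀ h' : c.PerOK l T.dualMap.dualMap, (c.ME l T₀.dualMap hok).Ret (c.ME l T.dualMap.dualMap h') := by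
  -- the functional `u` as a linear map
  obtain ⟨hY, o, p, r, φ, ho, huφ⟩ := id hu
  let u' : Dual k (Fin (p0.Y j).n → k) := omLl (p0.X i) (p0.Y j) (p0.a i) (p0.b j) o p r φ
  have hu' : ∀ v : Fin (p0.Y j).n → k, u (SAlg.EM.of (p0.Y j).T.toLinearMap v) = u' v := fun v => huφ v
  have hu'' : ∀ w : SAlg.EM (p0.Y j).T.toLinearMap, u w = u' ((SAlg.EM.of (p0.Y j).T.toLinearMap).symm w) := fun w => by
    rw [← hu', LinearEquiv.apply_symm_apply]
  obtain ⟨f, hf⟩ := exists_tr (T := T) (T₂ := (p0.Y j).T) G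
  let x : SAlg.EM (p0.Y j).T.dualMap.toLinearMap := SAlg.EM.of _ u'
  -- the values of the functional `z`
  have hzv : ∀ (g : k[X]) (v : V), (SAlg.EM.of T.dualMap.toLinearMap).symm (g • f x) v =
      u (g • G (SAlg.EM.of T.toLinearMap v)) := by
    intro g v
    rw [hf u', SAlg.EM.smul_of, LinearEquiv.symm_apply_apply, aeval_dualMap, LinearMap.comp_apply, hu'']
    congr 1
    show (SAlg.EM.of (p0.Y j).T.toLinearMap).symm (G (SAlg.EM.of T.toLinearMap (aeval T.toLinearMap g v))) = _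
    rw [← SAlg.EM.smul_of, map_smul]
  have hz0 : d • f x ≠ 0 := by
    intro h0
    apply h3
    have := hzv d ((SAlg.EM.of T.toLinearMap).symm t)
    rw [LinearEquiv.apply_symm_apply] at this
    rw [← this, h0, map_zero, LinearMap.zero_apply]
  have hz : π • d • f x = 0 := by
    apply (SAlg.EM.of T.dualMap.toLinearMap).symm.injective
    refine LinearMap.ext fun v => ?_
    rw [smul_smul, hzv, map_zero, LinearMap.zero_apply, mul_comm, mul_smul, ← map_smul]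
    exact h4 _
  have hinf : ∀ n : ℕ, ∃ w : SAlg.EM T.dualMap.toLinearMap, d • f x = π ^ n • w := by
    intro n
    have hmem : (SAlg.EM.of T.dualMap.toLinearMap).symm (d • f x) ∈
        (LinearMap.ker (aeval T.toLinearMap (π ^ n))).dualAnnihilator := by
      rw [Submodule.mem_dualAnnihilator]
      intro v hv
      rw [hzv]
      refine h5 n _ ?_
      rw [SAlg.EM.smul_of, LinearMap.mem_ker.1 hv, map_zero]
    rw [← LinearMap.range_dualMap_eq_dualAnnihilator_ker] at hmem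
    obtain ⟨w, hw⟩ := hmem
    refine ⟨SAlg.EM.of _ w, (SAlg.EM.of T.dualMap.toLinearMap).symm.injective ?_⟩
    rw [← hw, SAlg.EM.smul_of, LinearEquiv.symm_apply_apply]
    refine LinearMap.ext fun v => ?_
    rw [aeval_dualMap]
    rfl
  obtain ⟨F, hF, hFx⟩ := fin_s3 hl h hu hfin
  have hFx' : ∀ f' : SAlg.EM (p0.Y j).T.dualMap.toLinearMap →ₗ[k[X]] SAlg.EM T.dualMap.toLinearMap, f' x ∈
      F.map (SAlg.EM.of T.dualMap.toLinearMap).toLinearMap := by
    intro f'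
    obtain ⟨G', hG'⟩ := of_tr f'
    refine ⟨emk f' u', hFx G' _ fun v => ?_, ?_⟩
    · rw [hG', hu'']; rfl
    · show SAlg.EM.of _ ((SAlg.EM.of _).symm (f' (SAlg.EM.of _ u'))) = _
      rw [LinearEquiv.apply_symm_apply]
  have hF' : FiniteDimensional k (F.map (SAlg.EM.of T.dualMap.toLinearMap).toLinearMap) := inferInstance
  have hkill : ∀ v : SAlg.EM (p0.Y j).T.dualMap.toLinearMap, (p0.Y j).T.toLinearMap.charpoly • v = 0 := by
    intro v
    obtain ⟨ξ, rfl⟩ := (SAlg.EM.of (p0.Y j).T.dualMap.toLinearMap).surjective v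
    rw [SAlg.EM.smul_of]
    have : aeval (p0.Y j).T.dualMap.toLinearMap (p0.Y j).T.toLinearMap.charpoly ξ = 0 := by
      refine LinearMap.ext fun v => ?_
      rw [aeval_dualMap, LinearMap.aeval_self_charpoly, LinearMap.zero_apply, map_zero]; rfl
    rw [this, map_zero]
  obtain ⟨E, hzE, g1, g2, g3, e, he⟩ := SAlg.exists_PR_sub (k := k) (R := k[X]) (V := SAlg.EM T.dualMap.toLinearMap) hπ
    (V₁ := SAlg.EM (p0.Y j).T.dualMap.toLinearMap) (LinearMap.charpoly_monic (p0.Y j).T.toLinearMap).ne_zero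
    hkill (x := x) (f := f) (c := d) hz0 hz hinf _ hF' hFx'
  obtain ⟨T₀, e₀, he₀, hTE, hT₀⟩ := isPR_of_sub T.dualMap E hπ hπX hz0 hz hzE g1 g2 g3
  have hok := perOK_of_min (k := k) hl T₀.dualMap
  have haev : ∀ (g : k[X]) (v : E), aeval T₀.toLinearMap g v = g • v := by
    intro g v
    have h6 := map_smul e₀ g v
    rw [he₀, he₀, SAlg.EM.smul_of] at h6
    exact ((SAlg.EM.of T₀.toLinearMap).injective h6).symm
  refine ⟨E, inferInstance, inferInstance, T₀, hok, hT₀, ?_, ?_⟩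
  · -- open
    refine nf_open_of hl hok p0 (i := i) (j := j) fun hcl => ?_
    obtain ⟨n, x', hx', hux'⟩ := SAlg.primary_of_three (rdat c l (p0.X i) (p0.Y j) (p0.a i) (p0.b j)) hπ h3 h4
    let zE : E := ⟨d • f x, hzE⟩
    let z' : SAlg.EM T₀.dualMap.toLinearMap →+ k :=
      { toFun := fun ξ => (SAlg.EM.of T₀.dualMap.toLinearMap).symm ξ zE
        map_zero' := by rw [map_zero, LinearMap.zero_apply]
        map_add' := fun ξ ξ' => by rw [map_add, LinearMap.add_apply] }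
    have hz' : ∀ ξ : Dual k E, z' (SAlg.EM.of _ ξ) = ξ zE := fun ξ => rfl
    have hzE0 : zE ≠ 0 := fun h0 => hz0 (congrArg Subtype.val h0)
    have hzs : ∀ (g : k[X]) (ξ : Dual k E), z' (g • SAlg.EM.of _ ξ) = ξ (g • zE) := by
      intro g ξ
      rw [SAlg.EM.smul_of, hz', aeval_dualMap, haev]
    have hdiv : ∀ n : ℕ, ∃ s : E, zE = π ^ n • s := by
      intro n
      induction n with
      | zero => exact ⟨zE, by rw [pow_zero, one_smul]⟩
      | succ n ih =>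
        obtain ⟨s, hs⟩ := ih
        obtain ⟨s', hs', hss⟩ := g2 s s.2
        refine ⟨⟨s', hs'⟩, ?_⟩
        rw [hs, pow_succ, mul_smul]
        congr 1
        exact (Subtype.ext hss).symm
    obtain ⟨G', t', hG'⟩ := SAlg.transfer_A hπ (V := SAlg.EM T₀.dualMap.toLinearMap) z' (by
        intro h0
        apply hzE0
        refine (Module.forall_dual_apply_eq_zero_iff k zE).1 fun ξ => ?_
        rw [← hz', h0, AddMonoidHom.zero_apply]) (by
        intro v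
        obtain ⟨ξ, rfl⟩ := (SAlg.EM.of T₀.dualMap.toLinearMap).surjective v
        rw [hzs]
        have : π • zE = 0 := Subtype.ext hz
        rw [this, map_zero]) (by
        intro n v hv
        obtain ⟨ξ, rfl⟩ := (SAlg.EM.of T₀.dualMap.toLinearMap).surjective v
        obtain ⟨s, hs⟩ := hdiv n
        rw [hz', hs]
        have h6 : (aeval T₀.dualMap.toLinearMap (π ^ n) ξ) = 0 := by
          rw [SAlg.EM.smul_of] at hv
          exact (SAlg.EM.of T₀.dualMap.toLinearMap).injective (hv.trans (map_zero _).symm)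
        have h7 := LinearMap.congr_fun h6 s
        rw [aeval_dualMap, haev, LinearMap.zero_apply] at h7
        exact h7) n x' hx'
    apply hux'
    rw [← hG']
    exact hcl.c3 u hu G' t'
  · -- retract
    intro h'
    have hr1 : ∀ v, emk (e₀.toLinearMap ∘ₗ e) (T.dualMap v) = T₀ (emk (e₀.toLinearMap ∘ₗ e) v) :=
      fun v => emk_comm _ v
    have hs1 : ∀ v, emk (E.subtype ∘ₗ e₀.symm.toLinearMap) (T₀ v) =
        T.dualMap (emk (E.subtype ∘ₗ e₀.symm.toLinearMap) v) := fun v => emk_comm _ v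
    have hrs : ∀ v, emk (e₀.toLinearMap ∘ₗ e) (emk (E.subtype ∘ₗ e₀.symm.toLinearMap) v) = v := by
      intro v
      show (SAlg.EM.of T₀.toLinearMap).symm (e₀ (e ((e₀.symm (SAlg.EM.of T₀.toLinearMap v) : E) :
        SAlg.EM T.dualMap.toLinearMap))) = v
      rw [he, LinearEquiv.apply_symm_apply, LinearEquiv.symm_apply_apply]
    refine ME_ret hok h' (emk (e₀.toLinearMap ∘ₗ e)).dualMap (emk (E.subtype ∘ₗ e₀.symm.toLinearMap)).dualMap ?_ ?_ ?_
    · intro ξ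
      refine LinearMap.ext fun v => ?_
      show ξ (T₀ (emk (e₀.toLinearMap ∘ₗ e) v)) = ξ (emk (e₀.toLinearMap ∘ₗ e) (T.dualMap v))
      rw [hr1]
    · intro ξ
      refine LinearMap.ext fun v => ?_
      show ξ (T.dualMap (emk (E.subtype ∘ₗ e₀.symm.toLinearMap) v)) =
        ξ (emk (E.subtype ∘ₗ e₀.symm.toLinearMap) (T₀ v))
      rw [hs1]
    · intro ξ
      refine LinearMap.ext fun v => ?_
      show ξ (emk (e₀.toLinearMap ∘ₗ e) (emk (E.subtype ∘ₗ e₀.symm.toLinearMap) v)) = ξ v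
      rw [hrs]

theorem thmR2 (Can : Set (Str S)) (hC : CanOK Can) (p0 : NF S k) (hp : p0.InCan Can) (b : Str S) (hb : b ∈ Can)
    (l : ℕ) (hl : b.MinPer l) (V : Type) [AddCommGroup V] [Module k V] (T : V ≃ₗ[k] V) (h : b.PerOK l T)
    (h1 : p0.pr.rk (b.ME l T h) ≠ 0) (h2 : p0.pr.rk (b.ME l T h) ≠ ⊤) :
    ∃ M N2 : Md D k, CompOK Can M ∧ p0.pr.rk M ≠ 0 ∧
      ∀ p : Pr D k, p.FD → p.rk (b.ME l T h) = p.rk M + p.rk N2 := by
  have hsep := sep_of_can hC hp hb hl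
  -- a block pair which is not closed
  obtain ⟨i, j, hnc⟩ : ∃ i j, ¬ (p0.rd b l i j).Closed (SAlg.EM T.toLinearMap) := by
    by_contra hcon
    push Not at hcon
    exact (nf_not_open_iff hl h p0 hsep).2 hcon ((Pr.rk_pos _ _).1 h1)
  have hfin : (bpr (p0.X i) (p0.Y j) (p0.a i) (p0.b j)).rk (b.ME l T h) ≠ ⊤ :=
    ne_top_of_le_ne_top h2 (rk_bpr_le p0 i j _)
  have hX : Function.Bijective fun x : SAlg.EM T.toLinearMap => (X : k[X]) • x := by
    have h3 : (fun x : SAlg.EM T.toLinearMap => (X : k[X]) • x) =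
        ((SAlg.EM.of T.toLinearMap).symm.trans (T.trans (SAlg.EM.of T.toLinearMap)) : _ → _) := by
      funext x
      obtain ⟨m, rfl⟩ := (SAlg.EM.of T.toLinearMap).surjective x
      rw [SAlg.EM.X_smul_of]
      rfl
    rw [h3]
    exact LinearEquiv.bijective _
  rcases SAlg.three_types (p0.rd b l i j) (SAlg.EM T.toLinearMap) (X : k[X]) hX hnc
      (fun r hr _ => fin_om hl h hr hfin) with
    ⟨π, hπ, hπX, n, ⟨ι, e, hιe⟩, hn⟩ | ⟨π, hπ, hπX, x, hx, f, c, hz0, hz, hinf⟩ |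
    ⟨π, hπ, hπX, u, hu, G, c, t, h3, h4, h5⟩
  · -- a finite-dimensional summand
    have hdeg := prime_natDegree hπ hπX
    have hπ0 : π ^ (n + 1) ≠ 0 := pow_ne_zero _ hπ.ne_zero
    obtain ⟨T', e', he'⟩ := exists_EM (k := k) (k[X] ⧸ Ideal.span {π ^ (n + 1)}) (X_bij_quot hdeg.2 (n + 1))
    have hfd := fd_quot (k := k) hπ0
    have hok := perOK_of_min (k := k) hl T'
    obtain ⟨N2, hN2⟩ := step_of_ret (ME_ret_emk hok h (ι ∘ₗ e'.symm.toLinearMap) (e'.toLinearMap ∘ₗ e) (fun v => by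
      show e' (e (ι (e'.symm v))) = v
      rw [hιe, LinearEquiv.apply_symm_apply]))
    refine ⟨b.ME l T' hok, N2, CompOK.F _ (ME_fd hl.1 hok hfd), ?_, fun p _ => hN2 p⟩
    exact (Pr.rk_pos _ _).2 (nf_open_of hl hok p0 (i := i) (j := j) fun hcl => hn (closed_iso e'.symm hcl))
  · -- a summand `R[1/π]/R`
    obtain ⟨F, hF, hFx⟩ := fin_s2 hl h hx hfin
    obtain ⟨E, hzE, g1, g2, g3, e, he⟩ := SAlg.exists_PR_sub (k := k) (R := k[X]) (V := SAlg.EM T.toLinearMap) hπ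
      (V₁ := SAlg.EM (p0.X i).T.toLinearMap) (LinearMap.charpoly_monic (p0.X i).T.toLinearMap).ne_zero
      (fun v => kill_charpoly _ v) (x := x) (f := f) (c := c) hz0 hz hinf F hF hFx
    obtain ⟨T₀, e₀, -, -, hT₀⟩ := isPR_of_sub T E hπ hπX hz0 hz hzE g1 g2 g3
    have hok := perOK_of_min (k := k) hl T₀
    obtain ⟨N2, hN2⟩ := step_of_ret (ME_ret_emk hok h (E.subtype ∘ₗ e₀.symm.toLinearMap) (e₀.toLinearMap ∘ₗ e)
      (fun v => by
        show e₀ (e ((e₀.symm v : E) : SAlg.EM T.toLinearMap)) = v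
        rw [he, LinearEquiv.apply_symm_apply]))
    refine ⟨b.ME l T₀ hok, N2, CompOK.P b hb l hl π hπ.irreducible E _ _ T₀ hok hT₀, ?_, fun p _ => hN2 p⟩
    refine (Pr.rk_pos _ _).2 (nf_open_of hl hok p0 (i := i) (j := j) fun hcl => ?_)
    have h6 := (closed_iso e₀.symm hcl).c2 x hx (e ∘ₗ f)
    have h7 : e (c • f x) = 0 := by
      rw [map_smul]
      exact (congrArg (c • ·) h6).trans (smul_zero _)
    have h8 := he ⟨c • f x, hzE⟩
    rw [h7] at h8
    exact hz0 (congrArg Subtype.val h8).symm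
  · -- a summand of the dual
    obtain ⟨W, iW, jW, T₀, hok, hT₀, hopn, hret⟩ := case_dual hl h p0 i j hfin hπ hπX hu h3 h4 h5
    have h' := perOK_of_min (k := k) hl T.dualMap.dualMap
    obtain ⟨N2, hN2⟩ := step_of_ret (hret h')
    refine ⟨b.ME l T₀.dualMap hok, N2, CompOK.A b hb l hl π hπ.irreducible W iW jW T₀ hT₀ hok,
      (Pr.rk_pos _ _).2 hopn, fun p hp => ?_⟩
    rw [← hN2 p, ← p.rk_hat hp, p.rk_iso (ME_dd hl.1 h h')]

end StrAlg
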